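import Pool.Agent.H65.PK.Targets

set_option autoImplicit false

namespace Pool.Agent.H5.PKER

open Pool.Agent.H65.PK

theorem pf_RKZ : T_RKZ := by
  intro d M N h
  have h1 := Matrix.rank_add_rank_le_card_of_mul_eq_zero h
  simpa using h1

end Pool.Agent.H5.PKER
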